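import Pool.Agent.N657.QR.Stm

/-!
# Comparison of the increments of the ground state energy
-/

namespace Pool.Agent.N803.QR.INC

open Pool.Agent.N657.QR

variable {V : Type} [Fintype V] [DecidableEq V]

theorem FF_bump (K : Matrix V V ℝ) (w : V → V → ℝ) (ν : V → ℝ) (x y : V) (r : ℝ)
    (ψ : (V → ℤ) → ℝ) : FF K (bump w x y r) ν ψ = FF K w ν ψ - r * cr x y ψ := by
  have h1 : (∑ a, ∑ b, bump w x y r a b * cr a b ψ) =
      (∑ a, ∑ b, w a b * cr a b ψ) + r * cr x y ψ := by
    have h2 : ∀ a b, bump w x y r a b * cr a b ψ =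
        w a b * cr a b ψ + (if a = x then (if b = y then r * cr a b ψ else 0) else 0) := by
      intro a b
      unfold bump
      by_cases ha : a = x
      · by_cases hb : b = y
        · simp [ha, hb]; ring
        · simp [ha, hb]
      · simp [ha]
    simp_rw [h2, Finset.sum_add_distrib]
    congr 1
    simp
  unfold FF
  rw [h1]
  ring

theorem conc (hB : S_BAS) [Nonempty V] (K : Matrix V V ℝ) (w : V → V → ℝ) (ν : V → ℝ) (N : ℤ)
    (x y : V) (hK : K.PosSemidef) (hw : ∀ a b, 0 ≤ w a b) (r s : ℝ) (hr : 0 ≤ r) (hs : 0 ≤ s)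
    (hrs : 0 < r + s) :
    s * en K w ν N + r * en K (bump w x y (r + s)) ν N ≤
      (r + s) * en K (bump w x y r) ν N := by
  have hb : ∀ t, 0 ≤ t → ∀ a b, 0 ≤ bump w x y t a b := by
    intro t ht a b
    unfold bump
    have := hw a b
    split_ifs <;> linarith
  apply le_of_forall_pos_le_add
  intro ε hε
  obtain ⟨ψ, hf, hS, hn, hF⟩ := hB.enex K (bump w x y r) ν N (ε / (r + s)) hK (hb r hr)
    (div_pos hε hrs)
  have h1 := hB.enle K w ν N ψ hK hw hf hS
  have h2 := hB.enle K (bump w x y (r + s)) ν N ψ hK (hb _ (by linarith)) hf hS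
  rw [hn, mul_one] at h1 h2
  rw [FF_bump] at h2 hF
  have h3 : (r + s) * (FF K w ν ψ - r * cr x y ψ) ≤
      (r + s) * (en K (bump w x y r) ν N + ε / (r + s)) :=
    mul_le_mul_of_nonneg_left hF.le hrs.le
  rw [mul_add, mul_div_cancel₀ _ hrs.ne'] at h3
  have h4 := mul_le_mul_of_nonneg_left h1 hs
  have h5 := mul_le_mul_of_nonneg_left h2 hr
  linarith [h3, h4, h5]

theorem main (hB : S_BAS) (hR : S_RSD) : S_INC := by
  intro V _ _ _ K K' w w' ν N x y s hK hK' hKK hw' hww' hs
  set w1 : V → V → ℝ := fun a b => if a = x ∧ b = y then w' a b else w a b with hw1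
  have hw1n : ∀ a b, 0 ≤ w1 a b := by
    intro a b
    simp only [hw1]
    have h1 := hw' a b
    have h2 := hww' a b
    split_ifs
    · exact h1
    · linarith
  have hb : ∀ t, 0 ≤ t → ∀ a b, 0 ≤ bump w' x y t a b := by
    intro t ht a b
    unfold bump
    have := hw' a b
    split_ifs <;> linarith
  have hsup : w1 ⊔ bump w' x y s = bump w1 x y s := by
    funext a b
    simp only [Pi.sup_apply, hw1, bump]
    have h1 := hw' a b
    have h2 := hww' a b
    split_ifs with h
    · exact max_eq_right (by linarith)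
    · rw [add_zero, add_zero]
      exact max_eq_left h2
  have hinf : w1 ⊓ bump w' x y s = w' := by
    funext a b
    simp only [Pi.inf_apply, hw1, bump]
    have h1 := hw' a b
    have h2 := hww' a b
    split_ifs with h
    · exact min_eq_left (by linarith)
    · rw [add_zero]
      exact min_eq_right h2
  have hR1 := hR K K' w1 (bump w' x y s) ν 0 N 0 hK hK' hKK hw1n (hb s hs)
  rw [hsup, hinf, add_zero, add_zero, sub_zero, sub_zero] at hR1
  set r : ℝ := w x y - w' x y with hr
  have hr0 : 0 ≤ r := by
    have := hww' x y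
    rw [hr]
    linarith
  have hwr : w = bump w1 x y r := by
    funext a b
    simp only [hw1, bump]
    split_ifs with h
    · rw [h.1, h.2, hr]
      ring
    · ring
  have hwrs : bump w x y s = bump w1 x y (r + s) := by
    funext a b
    simp only [hw1, bump]
    split_ifs with h
    · rw [h.1, h.2, hr]
      ring
    · ring
  have hkey : en K (bump w1 x y (r + s)) ν N + en K w1 ν N ≤
      en K (bump w1 x y r) ν N + en K (bump w1 x y s) ν N := by
    rcases (add_nonneg hr0 hs).eq_or_lt with h0 | h0
    · have e1 : r = 0 := by linarith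
      have e2 : s = 0 := by linarith
      have e3 : bump w1 x y 0 = w1 := by
        funext a b
        simp [bump]
      rw [e1, e2, add_zero, e3]
    · have c1 := conc hB K w1 ν N x y hK hw1n r s hr0 hs h0
      have c2 := conc hB K w1 ν N x y hK hw1n s r hs hr0 (by linarith)
      rw [add_comm s r] at c2
      have c3 : (r + s) * (en K (bump w1 x y (r + s)) ν N + en K w1 ν N) ≤
          (r + s) * (en K (bump w1 x y r) ν N + en K (bump w1 x y s) ν N) := by
        linarith
      exact le_of_mul_le_mul_left c3 h0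
  rw [hwrs]
  conv_rhs => rw [hwr]
  linarith

end Pool.Agent.N803.QR.INC
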